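import Mathlib
import Pool.Agent.H274.ExpSum

/-!
# The Möbius exponential sum, uniformly on translates of small sets

Let `F_R(x) = ∑_{n ≤ R} μ(n) e(nx)`. For every bounded set `K` of reals of upper Minkowski dimension at most `d` we show,
unconditionally:

(1) for `0 ≤ β ≤ 1` and all `t` outside of a set of Hausdorff dimension at most `2 + d - 2β` there is a `C` with
`|F_R(x)| ≤ C R^β` for all `R ≥ 1` and ALL `x` in the translate `t + K`;

(2) for almost all `t`, `sup_{x ∈ t + K} |F_R(x)| ≤ C R^{(1 + d)/2 + ε}` for all `R` and every `ε > 0`.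

These hold simultaneously for countably many sets `K` and twists `∑ μ(n) g(n) e(nx)` with `|g| ≤ 1` (e.g. all Dirichlet
characters, all residue classes).

For `K = {0}`, `d = 0`: `F_R(x) = O(R^β)` for all `x` outside of a set of dimension at most `2 - 2β`; the case of almost all
`x` is well known (from the theorem of Carleson). For `d = 0`, e.g. `K = {2^{-n}}`, the exponent `1/2 + ε` of Q1 holds uniformly
on `t + K`, for almost all `t`. For `d < 1/2` the exponent is smaller than the exponent `3/4` which Baker and Harman proved for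
all `x` under the Generalized Riemann Hypothesis. (The file of the problem quotes this theorem without the hypothesis.
Unconditionally only Davenport's `O(R (log R)^{-A})` is known for all `x`.)

The proof: by a maximal inequality of Rademacher and Menshov at the points `i / 2^k` and partial summation, `|F_R(x)| ≤
2^{kβ}` for all `R ≤ 2^k` and all `x` outside of `O(k² 2^{k(2 - 2β)})` of the intervals `[i / 2^k, (i + 1) / 2^k]`. If `t + K`
meets one of these intervals then `t` is in a set covered by `O(k² 2^{k(2 - 2β + d + ε)})` intervals of length `4 / 2^k`.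
-/

set_option autoImplicit false

namespace Pool.Agent.Results.MP_b6b996_nt.UniformOnTranslates

open Filter MeasureTheory Finset

/-- `F_R(x) = ∑_{n=1}^R μ(n) g(n) e^{2πinx}`; for `g = 1` this is the Möbius exponential sum -/
noncomputable def F (g : ℕ → ℂ) (R : ℕ) (x : ℝ) : ℂ :=
  ∑ n ∈ Finset.Icc 1 R, ((ArithmeticFunction.moebius n : ℤ) : ℂ) * g n * Complex.exp (2 * Real.pi * Complex.I * n * x)

/-- `K` is bounded, with upper Minkowski (box counting) dimension at most `d` -/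
def MinkowskiLe (K : Set ℝ) (d : ℝ) : Prop :=
  (∃ B : ℝ, ∀ y ∈ K, |y| ≤ B) ∧
  ∀ ε : ℝ, 0 < ε → ∃ C : ℝ, ∀ k : ℕ, ∃ Y : Finset ℝ, (Y.card : ℝ) ≤ C * ((2 : ℝ) ^ k) ^ (d + ε) ∧
    ∀ y ∈ K, ∃ c ∈ Y, |y - c| ≤ 1 / (2 : ℝ) ^ k

/-- `|F_R(x)| ≤ C R^β` for all `R ≥ 1` and all `x ∈ t + K` -/
def Uniform (g : ℕ → ℂ) (K : Set ℝ) (β t C : ℝ) : Prop :=
  ∀ R : ℕ, 1 ≤ R → ∀ y ∈ K, ‖F g R (t + y)‖ ≤ C * (R : ℝ) ^ β

/-- the coefficients `μ(n) g(n)` -/
noncomputable def co (g : ℕ → ℂ) (n : ℕ) : ℂ := ((ArithmeticFunction.moebius n : ℤ) : ℂ) * g n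

theorem co_le {g : ℕ → ℂ} (hg : ∀ n, ‖g n‖ ≤ 1) (n : ℕ) : ‖co g n‖ ≤ 1 := by
  unfold co
  rw [norm_mul]
  have h1 : ‖((ArithmeticFunction.moebius n : ℤ) : ℂ)‖ ≤ 1 := by
    rw [Complex.norm_intCast]
    exact_mod_cast ArithmeticFunction.abs_moebius_le_one
  calc ‖((ArithmeticFunction.moebius n : ℤ) : ℂ)‖ * ‖g n‖ ≤ 1 * 1 := mul_le_mul h1 (hg n) (norm_nonneg _) zero_le_one
    _ = 1 := one_mul 1

theorem F_eq (g : ℕ → ℂ) (R : ℕ) (x : ℝ) : F g R x = Pool.Agent.H274.ExpSum.F (co g) R x := rfl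

theorem summ {q : ℝ} (hq0 : 0 < q) (hq1 : q < 1) : Summable fun k : ℕ => ((k : ℝ) + 1) ^ 2 * q ^ k := by
  have h1 : Summable fun k : ℕ => ((k : ℝ)) ^ 2 * q ^ k :=
    summable_pow_mul_geometric_of_norm_lt_one 2 (by rw [Real.norm_eq_abs, abs_of_pos hq0]; exact hq1)
  have h2 := (summable_nat_add_iff 1).2 h1
  have h3 := h2.mul_left (1 / q)
  refine h3.congr fun k => ?_
  push_cast
  rw [pow_succ q k]
  field_simp

theorem dyadic (R : ℕ) (hR : 1 ≤ R) (n₀ : ℕ) : ∃ k : ℕ, n₀ ≤ k ∧ R ≤ 2 ^ k ∧ (2 : ℝ) ^ k ≤ (2 : ℝ) ^ (n₀ + 1) * R := by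
  refine ⟨max n₀ (Nat.clog 2 R), le_max_left _ _, ?_, ?_⟩
  · exact (Nat.le_pow_clog (by norm_num) R).trans (Nat.pow_le_pow_right (by norm_num) (le_max_right _ _))
  · have h1 : (2 : ℝ) ^ (Nat.clog 2 R) ≤ 2 * R := by
      rcases Nat.lt_or_ge 1 R with h | h
      · have h2 := Nat.pow_pred_clog_lt_self (b := 2) (by norm_num) h
        have h3 : Nat.clog 2 R ≠ 0 := by
          have := Nat.clog_pos (b := 2) (by norm_num) h
          omega
        have h4 : 2 ^ (Nat.clog 2 R) = 2 * 2 ^ (Nat.clog 2 R).pred := by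
          rw [← pow_succ']
          congr 1
          exact (Nat.succ_pred h3).symm
        have h5 : 2 ^ (Nat.clog 2 R) ≤ 2 * R := by omega
        exact_mod_cast h5
      · have h6 : R = 1 := le_antisymm h hR
        subst h6
        simp
    have hR1 : (1 : ℝ) ≤ R := by exact_mod_cast hR
    have h2 : (1 : ℝ) ≤ 2 ^ n₀ := one_le_pow₀ (by norm_num)
    rw [pow_succ]
    rcases le_total n₀ (Nat.clog 2 R) with h | h
    · rw [max_eq_right h]
      nlinarith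
    · rw [max_eq_left h]
      nlinarith

/-- one set and one twist -/
theorem one {g : ℕ → ℂ} (hg : ∀ n, ‖g n‖ ≤ 1) {K : Set ℝ} {d : ℝ} (hd : 0 ≤ d) (hK : MinkowskiLe K d) {β : ℝ}
    (hβ0 : 0 ≤ β) (hβ1 : β ≤ 1) :
    ∃ E : Set ℝ, dimH E ≤ ENNReal.ofReal (2 + d - 2 * β) ∧ ∀ t : ℝ, t ∉ E → ∃ C : ℝ, Uniform g K β t C := by
  classical
  choose G hG1 hG2 using fun k => Pool.Agent.H274.ExpSum.bad (co_le hg) β k
  obtain ⟨⟨B, hB⟩, hcov⟩ := hK
  set E : ℕ → Set ℝ := fun A => {t : ℝ | |t| ≤ A ∧ ∀ n : ℕ, ∃ k : ℕ, n ≤ k ∧ ∃ y ∈ K,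
    ⌊(2 : ℝ) ^ k * Int.fract (t + y)⌋₊ ∈ G k} with hE
  refine ⟨⋃ A, E A, ?_, fun t ht => ?_⟩
  · rw [dimH_iUnion]
    refine iSup_le fun A => ?_
    apply ENNReal.le_of_forall_pos_le_add
    intro ε hε _
    have hε' : (0 : ℝ) < ε := by exact_mod_cast hε
    obtain ⟨C, hC⟩ := hcov (ε / 2) (by linarith)
    choose Y hY1 hY2 using hC
    set L : ℤ := ⌈(A : ℝ) + |B| + 1⌉ with hL
    have hLr : (A : ℝ) + |B| + 1 ≤ (L : ℝ) := Int.le_ceil _
    set G' : ℕ → Finset ℝ := fun k => (G k ×ˢ (Finset.Icc (-L) L ×ˢ Y k)).image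
      (fun p : ℕ × ℤ × ℝ => (p.1 : ℝ) / 2 ^ k + p.2.1 - p.2.2) with hG'
    set D : ℝ := 2 + d - 2 * β + ε with hD
    have hD0 : 0 < D := by rw [hD]; linarith
    have hLcard : 0 ≤ ((Finset.Icc (-L) L).card : ℝ) := Nat.cast_nonneg _
    set c₀ : ℝ := 64 * ((Finset.Icc (-L) L).card : ℝ) * |C| * 4 ^ D with hc₀
    have hcard : ∀ k, ((G' k).card : ℝ) * (2 * (2 / 2 ^ k)) ^ D ≤
        c₀ * (((k : ℝ) + 1) ^ 2 * ((2 : ℝ) ^ (-((ε : ℝ) / 2))) ^ k) := by
      intro k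
      have h2k : (0 : ℝ) < 2 ^ k := by positivity
      have h1 : ((G' k).card : ℝ) ≤ (G k).card * (((Finset.Icc (-L) L).card : ℝ) * (Y k).card) := by
        have h0 : (G' k).card ≤ (G k).card * ((Finset.Icc (-L) L).card * (Y k).card) := by
          refine Finset.card_image_le.trans ?_
          rw [Finset.card_product, Finset.card_product]
        exact_mod_cast h0
      have h2 : ((Y k).card : ℝ) ≤ |C| * ((2 : ℝ) ^ k) ^ (d + ε / 2) :=
        (hY1 k).trans (mul_le_mul_of_nonneg_right (le_abs_self C) (by positivity))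
      have h3 : ((G' k).card : ℝ) ≤ (64 * ((k : ℝ) + 1) ^ 2 * ((2 : ℝ) ^ k) ^ (2 - 2 * β)) *
          (((Finset.Icc (-L) L).card : ℝ) * (|C| * ((2 : ℝ) ^ k) ^ (d + ε / 2))) := by
        refine h1.trans (mul_le_mul (hG1 k) (mul_le_mul_of_nonneg_left h2 hLcard) (by positivity) (by positivity))
      have h4 : (2 * (2 / (2 : ℝ) ^ k)) ^ D = 4 ^ D * ((2 : ℝ) ^ k) ^ (-D) := by
        have : 2 * (2 / (2 : ℝ) ^ k) = 4 * ((2 : ℝ) ^ k)⁻¹ := by
          rw [div_eq_mul_inv]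
          ring
        rw [this, Real.mul_rpow (by norm_num) (by positivity), Real.inv_rpow h2k.le, ← Real.rpow_neg h2k.le]
      have h5 : ((2 : ℝ) ^ (-((ε : ℝ) / 2))) ^ k = ((2 : ℝ) ^ k) ^ (2 - 2 * β) * ((2 : ℝ) ^ k) ^ (d + ε / 2) * ((2 : ℝ) ^ k) ^ (-D) := by
        rw [← Real.rpow_add h2k, ← Real.rpow_add h2k, ← Real.rpow_natCast, ← Real.rpow_mul (by norm_num),
          ← Real.rpow_natCast, ← Real.rpow_mul (by norm_num)]
        congr 1
        rw [hD]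
        ring
      rw [h4, h5]
      calc ((G' k).card : ℝ) * (4 ^ D * ((2 : ℝ) ^ k) ^ (-D)) ≤
          ((64 * ((k : ℝ) + 1) ^ 2 * ((2 : ℝ) ^ k) ^ (2 - 2 * β)) *
            (((Finset.Icc (-L) L).card : ℝ) * (|C| * ((2 : ℝ) ^ k) ^ (d + ε / 2)))) * (4 ^ D * ((2 : ℝ) ^ k) ^ (-D)) :=
            mul_le_mul_of_nonneg_right h3 (by positivity)
        _ = _ := by
            rw [hc₀]
            ring
    have hq0 : (0 : ℝ) < (2 : ℝ) ^ (-((ε : ℝ) / 2)) := by positivity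
    have hq1 : (2 : ℝ) ^ (-((ε : ℝ) / 2)) < 1 := Real.rpow_lt_one_of_one_lt_of_neg (by norm_num) (by linarith)
    have hsum : Summable fun k => ((G' k).card : ℝ) * (2 * (2 / 2 ^ k)) ^ D :=
      Summable.of_nonneg_of_le (fun k => by positivity) hcard ((summ hq0 hq1).mul_left c₀)
    have hρ0 : Tendsto (fun k : ℕ => (2 : ℝ) / 2 ^ k) atTop (nhds 0) := by
      have h1 : Tendsto (fun k : ℕ => (2 : ℝ) * (1 / 2) ^ k) atTop (nhds (2 * 0)) :=
        (tendsto_pow_atTop_nhds_zero_of_lt_one (by norm_num) (by norm_num)).const_mul 2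
      rw [mul_zero] at h1
      refine h1.congr fun k => ?_
      rw [one_div, inv_pow, div_eq_mul_inv]
    have hdim := Pool.Agent.H274.ExpSum.dim_limsup G' (fun k => 2 / 2 ^ k) (fun k => by positivity) hρ0 hD0 hsum
    have hsub : E A ⊆ {t : ℝ | ∀ n : ℕ, ∃ k : ℕ, n ≤ k ∧ ∃ c ∈ G' k, |t - c| ≤ 2 / 2 ^ k} := by
      rintro t ⟨htA, hlim⟩ n
      obtain ⟨k, hk, y, hy, hbad⟩ := hlim n
      obtain ⟨c, hc, hyc⟩ := hY2 k y hy
      have h2k : (0 : ℝ) < 2 ^ k := by positivity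
      set x : ℝ := t + y with hx
      set i : ℕ := ⌊(2 : ℝ) ^ k * Int.fract x⌋₊ with hi
      have hf0 := Int.fract_nonneg x
      have hi1 : (i : ℝ) ≤ (2 : ℝ) ^ k * Int.fract x := Nat.floor_le (by positivity)
      have hi2 : (2 : ℝ) ^ k * Int.fract x < i + 1 := Nat.lt_floor_add_one _
      have hyB := hB y hy
      have hxA : |x| ≤ A + |B| := by
        calc |x| ≤ |t| + |y| := abs_add_le _ _
          _ ≤ A + |B| := add_le_add htA (hyB.trans (le_abs_self B))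
      have hl : ⌊x⌋ ∈ Finset.Icc (-L) L := by
        rw [Finset.mem_Icc]
        rw [abs_le] at hxA
        constructor
        · have h1 : ((-L : ℤ) : ℝ) ≤ x := by
            push_cast
            linarith
          exact Int.le_floor.2 h1
        · have h1 : ((⌊x⌋ : ℤ) : ℝ) ≤ (L : ℝ) := (Int.floor_le x).trans (by linarith)
          exact_mod_cast h1
      refine ⟨k, hk, (i : ℝ) / 2 ^ k + (⌊x⌋ : ℝ) - c, ?_, ?_⟩
      · rw [hG']
        refine Finset.mem_image.2 ⟨(i, ⌊x⌋, c), ?_, rfl⟩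
        rw [Finset.mem_product, Finset.mem_product]
        exact ⟨hbad, hl, hc⟩
      · have h3 : t - ((i : ℝ) / 2 ^ k + (⌊x⌋ : ℝ) - c) = (Int.fract x - (i : ℝ) / 2 ^ k) - (y - c) := by
          have := Int.floor_add_fract x
          rw [hx] at this ⊢
          linarith
        have h4 : |Int.fract x - (i : ℝ) / 2 ^ k| ≤ 1 / 2 ^ k := by
          have h5 : Int.fract x - (i : ℝ) / 2 ^ k = ((2 : ℝ) ^ k * Int.fract x - i) / 2 ^ k := by
            field_simp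
          rw [h5, abs_div, abs_of_pos h2k]
          refine div_le_div_of_nonneg_right ?_ h2k.le
          rw [abs_le]
          constructor <;> linarith
        rw [h3]
        calc |(Int.fract x - (i : ℝ) / 2 ^ k) - (y - c)| ≤ |Int.fract x - (i : ℝ) / 2 ^ k| + |y - c| := abs_sub _ _
          _ ≤ 1 / 2 ^ k + 1 / 2 ^ k := add_le_add h4 hyc
          _ = 2 / 2 ^ k := by ring
    refine (dimH_mono hsub).trans (hdim.trans ?_)
    rw [hD, ENNReal.ofReal_add (by linarith) hε'.le, ENNReal.ofReal_coe_nnreal]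
  · obtain ⟨A, hA⟩ := exists_nat_ge |t|
    have h1 : t ∉ E A := fun h => ht (Set.mem_iUnion.2 ⟨A, h⟩)
    have h2 : ∃ n₀ : ℕ, ∀ k : ℕ, n₀ ≤ k → ∀ y ∈ K, ⌊(2 : ℝ) ^ k * Int.fract (t + y)⌋₊ ∉ G k := by
      by_contra hcon
      push Not at hcon
      exact h1 ⟨hA, hcon⟩
    obtain ⟨n₀, hn₀⟩ := h2
    refine ⟨((2 : ℝ) ^ (n₀ + 1)) ^ β, fun R hR y hy => ?_⟩
    obtain ⟨k, hk1, hk2, hk3⟩ := dyadic R hR n₀
    rw [F_eq]
    refine (hG2 k (t + y) (hn₀ k hk1 y hy) R hk2).trans ?_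
    rw [← Real.mul_rpow (by positivity) (by positivity)]
    exact Real.rpow_le_rpow (by positivity) hk3 hβ0

theorem Uniform.mono {g : ℕ → ℂ} {K : Set ℝ} {β β' t C : ℝ} (hβ : β ≤ β') (h : Uniform g K β t C) :
    Uniform g K β' t |C| := by
  intro R hR y hy
  have hR1 : (1 : ℝ) ≤ R := by exact_mod_cast hR
  calc ‖F g R (t + y)‖ ≤ C * (R : ℝ) ^ β := h R hR y hy
    _ ≤ |C| * (R : ℝ) ^ β := mul_le_mul_of_nonneg_right (le_abs_self C) (by positivity)
    _ ≤ |C| * (R : ℝ) ^ β' := mul_le_mul_of_nonneg_left (Real.rpow_le_rpow_of_exponent_le hR1 hβ) (abs_nonneg C)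

theorem trivial_bound {g : ℕ → ℂ} (hg : ∀ n, ‖g n‖ ≤ 1) (K : Set ℝ) {β : ℝ} (hβ : 1 ≤ β) (t : ℝ) : Uniform g K β t 1 := by
  intro R hR y _
  have hR1 : (1 : ℝ) ≤ R := by exact_mod_cast hR
  rw [F_eq, one_mul]
  refine (Pool.Agent.H274.ExpSum.F_le (co_le hg) R (t + y)).trans ?_
  calc (R : ℝ) = (R : ℝ) ^ (1 : ℝ) := (Real.rpow_one _).symm
    _ ≤ (R : ℝ) ^ β := Real.rpow_le_rpow_of_exponent_le hR1 hβ

/-- **Theorem.** Let `K j` be countably many bounded sets of upper Minkowski dimension at most `d j`, and `|g j| ≤ 1`. (1) For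
all `t` outside of a set of dimension at most `2 + δ - 2β`, for all `j` with `d j ≤ δ`, the sums are `O(R^β)` uniformly on
`t + K j`. (2) For almost all `t`, for all `j`, the sums are `O(R^β)` uniformly on `t + K j` for all `β > (1 + d j)/2`. -/
theorem result {J : Type} [Countable J] (g : J → ℕ → ℂ) (hg : ∀ j n, ‖g j n‖ ≤ 1) (K : J → Set ℝ) (d : J → ℝ)
    (hd : ∀ j, 0 ≤ d j) (hK : ∀ j, MinkowskiLe (K j) (d j)) :
    (∀ δ β : ℝ, 0 ≤ β → β ≤ 1 → ∃ E : Set ℝ, dimH E ≤ ENNReal.ofReal (2 + δ - 2 * β) ∧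
      ∀ t : ℝ, t ∉ E → ∀ j : J, d j ≤ δ → ∃ C : ℝ, Uniform (g j) (K j) β t C) ∧
    ∀ᵐ t : ℝ, ∀ (j : J) (β : ℝ), (1 + d j) / 2 < β → ∃ C : ℝ, Uniform (g j) (K j) β t C := by
  constructor
  · intro δ β hβ0 hβ1
    have h : ∀ j : J, ∃ E : Set ℝ, dimH E ≤ ENNReal.ofReal (2 + δ - 2 * β) ∧
        ∀ t : ℝ, t ∉ E → d j ≤ δ → ∃ C : ℝ, Uniform (g j) (K j) β t C := by
      intro j
      by_cases hj : d j ≤ δ
      · obtain ⟨E, h1, h2⟩ := one (hg j) (hd j) (hK j) hβ0 hβ1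
        exact ⟨E, h1.trans (ENNReal.ofReal_le_ofReal (by linarith)), fun t ht _ => h2 t ht⟩
      · exact ⟨∅, by simp, fun t _ h => absurd h hj⟩
    choose E h1 h2 using h
    refine ⟨⋃ j, E j, ?_, fun t ht j hj => h2 j t (fun h => ht (Set.mem_iUnion.2 ⟨j, h⟩)) hj⟩
    rw [dimH_iUnion]
    exact iSup_le h1
  · have h : ∀ (j : J) (r : ℚ), ∀ᵐ t : ℝ, (1 + d j) / 2 < (r : ℝ) → (r : ℝ) ≤ 1 → ∃ C : ℝ, Uniform (g j) (K j) r t C := by
      intro j r
      by_cases hc : (1 + d j) / 2 < (r : ℝ) ∧ (r : ℝ) ≤ 1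
      · have hdj := hd j
        obtain ⟨E, h1, h2⟩ := one (hg j) (hd j) (hK j) (β := (r : ℝ)) (by linarith [hc.1]) hc.2
        have hnull : volume E = 0 := by
          rw [← hausdorffMeasure_real]
          refine hausdorffMeasure_of_dimH_lt (d := 1) (h1.trans_lt ?_)
          simpa using (ENNReal.ofReal_lt_one).2 (show 2 + d j - 2 * (r : ℝ) < 1 by linarith [hc.1])
        filter_upwards [compl_mem_ae_iff.2 hnull] with t ht _ _
        exact h2 t ht
      · exact Filter.Eventually.of_forall fun t h1 h2 => absurd ⟨h1, h2⟩ hc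
    have hall : ∀ᵐ t : ℝ, ∀ (j : J) (r : ℚ), (1 + d j) / 2 < (r : ℝ) → (r : ℝ) ≤ 1 → ∃ C : ℝ, Uniform (g j) (K j) r t C :=
      ae_all_iff.2 fun j => ae_all_iff.2 fun r => h j r
    filter_upwards [hall] with t ht j β hβ
    rcases le_or_gt 1 β with hβ1 | hβ1
    · exact ⟨1, trivial_bound (hg j) (K j) hβ1 t⟩
    · obtain ⟨r, hr1, hr2⟩ := exists_rat_btwn hβ
      obtain ⟨C, hC⟩ := ht j r hr1 (by linarith)
      exact ⟨|C|, hC.mono hr2.le⟩

end Pool.Agent.Results.MP_b6b996_nt.UniformOnTranslates
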